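import Mathlib

/-!
# MP_f65ae4_nt, Q1: `(-1)^(n-1) a_n` is a positive integer for `n ≥ 2`

`S_n = ∑_{k<n} (20k+3) M_k (-1024)^(n-1-k)`, `M_k = (4k)!/(k!)^4`, `a_n = S_n / (2n(2n+1)C(2n,n))`.

Let `I a b = (2a+2b)! a! / ((a+b)! b! (2a)!)`, an integer (it is the coefficient of `x^b` in
`(1-4x)^(-a-1/2)`), and `A n j = C(2j,j) I (n-j) (n+j)` for `j ≤ n`.

* WZ identity: `64 S_n = - n C(2n,n) Σ_n` with `Σ_n = ∑_{j<n} A n j (-16)^(n-j)`.
* Telescoping: `4 n Σ_n = -(2n+1) ∑_{j<n} A n j (-16)^(n-j) / (2j-1) - 8 n² C(2n,n) C(4n,2n) / (2n-1)`;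
  here `C(2j,j)/(2j-1)` is an integer and `2n+1` divides `C(4n,2n)`, so `2n+1` divides `Σ_n`.
* `128` divides `Σ_n` for `n ≥ 2`.
* The sign comes from the fact that the series is alternating with decreasing terms.
-/

set_option autoImplicit false

open Finset

namespace Pool.Agent.Results.MP_f65ae4_nt.SignIntegrality

/-- `M_k = (4k)!/(k!)^4` (as a rational number) -/
noncomputable def M (k : ℕ) : ℚ := ((4 * k).factorial : ℚ) / ((k.factorial : ℚ)) ^ 4

/-- `S_n = ∑_{k<n} (20k+3) M_k (-1024)^(n-1-k)` -/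
noncomputable def S (n : ℕ) : ℚ :=
  ∑ k ∈ range n, (20 * (k : ℚ) + 3) * M k * (-1024) ^ (n - 1 - k)

/-- `a_n = S_n / (2n(2n+1)C(2n,n))` -/
noncomputable def a (n : ℕ) : ℚ := S n / (2 * n * (2 * n + 1) * ((2 * n).choose n : ℚ))

/-! ## the integers `I a b` -/

/-- the coefficient of `x^b` in `(1-4x)^(-a-1/2)` -/
def I : ℕ → ℕ → ℕ
  | 0, b => Nat.centralBinom b
  | _ + 1, 0 => 1
  | a + 1, b + 1 => I a (b + 1) + 4 * I (a + 1) b

lemma fact2 (m : ℕ) : ((2 * (m + 1)).factorial : ℚ) =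
    (2 * m + 2) * (2 * m + 1) * ((2 * m).factorial : ℚ) := by
  have h : 2 * (m + 1) = 2 * m + 1 + 1 := by ring
  rw [h, Nat.factorial_succ, Nat.factorial_succ]
  push_cast
  ring

lemma fact1 (m : ℕ) : ((m + 1).factorial : ℚ) = (m + 1) * (m.factorial : ℚ) := by
  rw [Nat.factorial_succ]; push_cast; ring

lemma I_closed (a b : ℕ) : (I a b : ℚ) = ((2 * (a + b)).factorial : ℚ) * (a.factorial : ℚ) /
    (((a + b).factorial : ℚ) * (b.factorial : ℚ) * ((2 * a).factorial : ℚ)) := by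
  induction a generalizing b with
  | zero =>
    simp only [I, zero_add, Nat.factorial_zero, Nat.mul_zero, Nat.cast_one, mul_one]
    rw [Nat.centralBinom_eq_two_mul_choose, Nat.cast_choose ℚ (by omega : b ≤ 2 * b)]
    have : 2 * b - b = b := by omega
    rw [this]
  | succ a iha =>
    induction b with
    | zero =>
      simp only [I, add_zero, Nat.factorial_zero, Nat.cast_one, mul_one]
      have h1 : ((a + 1).factorial : ℚ) ≠ 0 := by positivity
      have h2 : ((2 * (a + 1)).factorial : ℚ) ≠ 0 := by positivity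
      field_simp
    | succ b ihb =>
      have e : I (a + 1) (b + 1) = I a (b + 1) + 4 * I (a + 1) b := by simp only [I]
      rw [e]
      push_cast
      rw [iha (b + 1), ihb]
      have e1 : a + (b + 1) = a + b + 1 := by ring
      have e2 : a + 1 + b = a + b + 1 := by ring
      have e3 : a + 1 + (b + 1) = a + b + 1 + 1 := by ring
      rw [e1, e2, e3, fact2 (a + b + 1), fact2 a, fact1 (a + b + 1), fact1 a, fact1 b]
      have h1 : (a.factorial : ℚ) ≠ 0 := by positivity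
      have h2 : (b.factorial : ℚ) ≠ 0 := by positivity
      have h3 : ((2 * a).factorial : ℚ) ≠ 0 := by positivity
      have h4 : ((a + b + 1).factorial : ℚ) ≠ 0 := by positivity
      have h5 : ((2 * (a + b + 1)).factorial : ℚ) ≠ 0 := by positivity
      push_cast
      have h6 : (2 : ℚ) * a + 1 ≠ 0 := by positivity
      have h7 : (2 : ℚ) * a + 2 ≠ 0 := by positivity
      have h8 : (a : ℚ) + b + 1 + 1 ≠ 0 := by positivity
      have h9 : (b : ℚ) + 1 ≠ 0 := by positivity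
      have h10 : (a : ℚ) + 1 ≠ 0 := by positivity
      field_simp
      ring

lemma I_diag (a b : ℕ) : (I (a + 1) (b + 1) : ℚ) * ((b + 1) * (2 * a + 1)) =
    2 * (2 * (a + b) + 3) * (2 * (a + b) + 1) * I a b := by
  rw [I_closed, I_closed]
  have e3 : a + 1 + (b + 1) = a + b + 1 + 1 := by ring
  rw [e3, fact2 (a + b + 1), fact2 (a + b), fact2 a, fact1 (a + b + 1), fact1 (a + b), fact1 a, fact1 b]
  have h1 : (a.factorial : ℚ) ≠ 0 := by positivity
  have h2 : (b.factorial : ℚ) ≠ 0 := by positivity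
  have h3 : ((2 * a).factorial : ℚ) ≠ 0 := by positivity
  have h4 : ((a + b).factorial : ℚ) ≠ 0 := by positivity
  have h5 : ((2 * (a + b)).factorial : ℚ) ≠ 0 := by positivity
  push_cast
  have h6 : (2 : ℚ) * a + 1 ≠ 0 := by positivity
  have h7 : (2 : ℚ) * a + 2 ≠ 0 := by positivity
  have h8 : (a : ℚ) + b + 1 + 1 ≠ 0 := by positivity
  have h8' : (a : ℚ) + b + 1 ≠ 0 := by positivity
  have h9 : (b : ℚ) + 1 ≠ 0 := by positivity
  have h10 : (a : ℚ) + 1 ≠ 0 := by positivity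
  field_simp
  ring

lemma I_shift (a b : ℕ) : (I a (b + 1) : ℚ) * (b + 1) = 2 * (2 * a + 1) * I (a + 1) b := by
  rw [I_closed, I_closed]
  have e3 : a + 1 + b = a + b + 1 := by ring
  have e4 : a + (b + 1) = a + b + 1 := by ring
  rw [e3, e4, fact2 a, fact1 a, fact1 b]
  have h1 : (a.factorial : ℚ) ≠ 0 := by positivity
  have h2 : (b.factorial : ℚ) ≠ 0 := by positivity
  have h3 : ((2 * a).factorial : ℚ) ≠ 0 := by positivity
  have h4 : ((a + b + 1).factorial : ℚ) ≠ 0 := by positivity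
  have h6 : (2 : ℚ) * a + 1 ≠ 0 := by positivity
  have h7 : (2 : ℚ) * a + 2 ≠ 0 := by positivity
  have h9 : (b : ℚ) + 1 ≠ 0 := by positivity
  have h10 : (a : ℚ) + 1 ≠ 0 := by positivity
  field_simp

lemma I_zero (b : ℕ) : I 0 b = Nat.centralBinom b := by simp only [I]

/-! ## the terms -/

/-- `A n j = C(2j,j) I (n-j) (n+j)` -/
def A (n j : ℕ) : ℕ := Nat.centralBinom j * I (n - j) (n + j)

/-- `u n j = A n j / (-16)^j` -/
noncomputable def u (n j : ℕ) : ℚ := (A n j : ℚ) / (-16) ^ j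

lemma cb_succ (j : ℕ) : ((j : ℚ) + 1) * (Nat.centralBinom (j + 1) : ℚ)
    = 2 * (2 * j + 1) * (Nat.centralBinom j : ℚ) := by
  have h := Nat.succ_mul_centralBinom_succ j
  exact_mod_cast h

lemma u_diag (n j : ℕ) (hj : j ≤ n) : u (n + 1) j * ((n + j + 1) * (2 * n - 2 * j + 1)) =
    2 * (4 * n + 3) * (4 * n + 1) * u n j := by
  obtain ⟨c, rfl⟩ := Nat.exists_eq_add_of_le hj
  have h := I_diag c (j + c + j)
  unfold u A
  have e1 : j + c + 1 - j = c + 1 := by omega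
  have e2 : j + c - j = c := by omega
  have e3 : j + c + 1 + j = j + c + j + 1 := by ring
  rw [e1, e2, e3]
  push_cast at h ⊢
  have e4 : (2 : ℚ) * (j + c) - 2 * j + 1 = 2 * c + 1 := by ring
  have e5 : (-16 : ℚ) ^ j ≠ 0 := pow_ne_zero _ (by norm_num)
  rw [e4]
  field_simp
  linear_combination (Nat.centralBinom j : ℚ) * h

lemma u_shift (n j : ℕ) (hj : j + 1 ≤ n) : u n (j + 1) * (4 * (j + 1) * (n + j + 1)) =
    -((2 * j + 1) * (2 * n - 2 * j - 1)) * u n j := by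
  obtain ⟨c, rfl⟩ := Nat.exists_eq_add_of_le hj
  have h := I_shift c (j + 1 + c + j)
  have h2 := cb_succ j
  unfold u A
  have e1 : j + 1 + c - (j + 1) = c := by omega
  have e2 : j + 1 + c - j = c + 1 := by omega
  have e3 : j + 1 + c + (j + 1) = j + 1 + c + j + 1 := by ring
  rw [e1, e2, e3, pow_succ]
  push_cast at h ⊢
  have e5 : (-16 : ℚ) ^ j ≠ 0 := pow_ne_zero _ (by norm_num)
  field_simp
  generalize (I c (j + 1 + c + j + 1) : ℚ) = X at *
  generalize (I (c + 1) (j + 1 + c + j) : ℚ) = Y at *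
  generalize (Nat.centralBinom (j + 1) : ℚ) = Z at *
  generalize (Nat.centralBinom j : ℚ) = V at *
  linear_combination (-4) * (j + 1) * Z * h - 4 * (2 * (2 * c + 1)) * Y * h2

/-- `c n = C(2n,n)/64^n` -/
noncomputable def c (n : ℕ) : ℚ := (Nat.centralBinom n : ℚ) / 64 ^ n

lemma c_succ (n : ℕ) : c (n + 1) * (32 * (n + 1)) = (2 * n + 1) * c n := by
  unfold c
  have h := cb_succ n
  rw [pow_succ]
  field_simp
  linear_combination 32 * h

/-- the WZ mate -/
noncomputable def F (n j : ℕ) : ℚ := -4 * j * (4 * j - 1) / (2 * n - 2 * j + 1) * (c n * u n j)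

lemma pos_aux (n j : ℕ) (hj : j ≤ n) : (0 : ℚ) < 2 * n - 2 * j + 1 := by
  have : (j : ℚ) ≤ n := by exact_mod_cast hj
  linarith

lemma wz_step (n j : ℕ) (hj : j + 1 ≤ n) :
    16 * ((n + 1) * c (n + 1) * u (n + 1) j - n * c n * u n j) = F n (j + 1) - F n j := by
  have h1 := u_diag n j (by omega)
  have h2 := u_shift n j hj
  have h3 := c_succ n
  have p1 := (pos_aux n j (by omega)).ne'
  have p2 : (2 : ℚ) * n - 2 * (j + 1) + 1 ≠ 0 := by
    have := (pos_aux n (j + 1) hj).ne'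
    push_cast at this
    exact this
  have q1 : (n : ℚ) + j + 1 ≠ 0 := by positivity
  have q2 : (j : ℚ) + 1 ≠ 0 := by positivity
  obtain ⟨P, hP⟩ : ∃ P : ℚ, P * (2 * n - 2 * j + 1) = 1 := ⟨_, inv_mul_cancel₀ p1⟩
  obtain ⟨P2, hP2⟩ : ∃ P : ℚ, P * (2 * n - 2 * (j + 1) + 1) = 1 := ⟨_, inv_mul_cancel₀ p2⟩
  obtain ⟨Q, hQ⟩ : ∃ Q : ℚ, Q * (n + j + 1) = 1 := ⟨_, inv_mul_cancel₀ q1⟩
  have hF1 : F n j = -4 * j * (4 * j - 1) * P * (c n * u n j) := by
    unfold F
    rw [div_mul_eq_mul_div, div_eq_iff p1]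
    linear_combination (4 * j * (4 * j - 1) * (c n * u n j)) * hP
  have hF2 : F n (j + 1) = -4 * (j + 1) * (4 * j + 3) * P2 * (c n * u n (j + 1)) := by
    unfold F
    push_cast
    rw [div_mul_eq_mul_div, div_eq_iff p2]
    linear_combination (4 * (j + 1) * (4 * j + 3) * (c n * u n (j + 1))) * hP2
  have e2 : 4 * (j + 1) * P2 * u n (j + 1) = -(2 * j + 1) * Q * u n j := by
    linear_combination (Q * P2) * h2 - 4 * (j + 1) * P2 * u n (j + 1) * hQ - (2 * j + 1) * Q * u n j * hP2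
  have e1 : u (n + 1) j = 2 * (4 * n + 3) * (4 * n + 1) * P * Q * u n j := by
    linear_combination (P * Q) * h1 - u (n + 1) j * (Q * (n + j + 1)) * hP - u (n + 1) j * hQ
  have key : (2 * (n : ℚ) + 1) * (4 * n + 3) * (4 * n + 1) * P * Q - 16 * n =
      (4 * j + 3) * (2 * j + 1) * Q + 4 * j * (4 * j - 1) * P := by
    linear_combination (16 * n + (4 * j + 3) * (2 * j + 1) * Q) * hP +
      (16 * n * P * (2 * n - 2 * j + 1) + 4 * j * (4 * j - 1) * P) * hQ
  rw [hF1, hF2, e1]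
  linear_combination (4 * n + 3) * (4 * n + 1) * P * Q * u n j * h3 + c n * u n j * key +
    (4 * j + 3) * c n * e2

lemma wz_sum (n J : ℕ) (hJ : J ≤ n) :
    ∑ j ∈ range J, 16 * ((n + 1) * c (n + 1) * u (n + 1) j - n * c n * u n j) = F n J := by
  induction J with
  | zero => simp [F]
  | succ J ih =>
    rw [sum_range_succ, ih (by omega), wz_step n J hJ]
    ring

lemma M_eq (n : ℕ) : M n = (Nat.centralBinom n : ℚ) ^ 2 * (Nat.centralBinom (2 * n) : ℚ) := by
  unfold M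
  rw [Nat.centralBinom_eq_two_mul_choose, Nat.centralBinom_eq_two_mul_choose,
    Nat.cast_choose ℚ (by omega : n ≤ 2 * n), Nat.cast_choose ℚ (by omega : 2 * n ≤ 2 * (2 * n))]
  have e1 : 2 * n - n = n := by omega
  have e2 : 2 * (2 * n) - 2 * n = 2 * n := by omega
  have e3 : 2 * (2 * n) = 4 * n := by ring
  rw [e1, e2, e3]
  have h1 : (n.factorial : ℚ) ≠ 0 := by positivity
  have h2 : ((2 * n).factorial : ℚ) ≠ 0 := by positivity
  field_simp

lemma cu (n : ℕ) : c n * u n n = M n / (-1024) ^ n := by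
  rw [M_eq]
  unfold c u A
  have e1 : n - n = 0 := by omega
  have e2 : n + n = 2 * n := by ring
  rw [e1, e2, I_zero]
  have e3 : (-1024 : ℚ) ^ n = 64 ^ n * (-16) ^ n := by rw [← mul_pow]; norm_num
  rw [e3]
  push_cast
  have e5 : (-16 : ℚ) ^ n ≠ 0 := pow_ne_zero _ (by norm_num)
  field_simp

theorem wz (n : ℕ) : ∑ k ∈ range n, (20 * (k : ℚ) + 3) * M k / (-1024) ^ k =
    16 * (n * c n) * ∑ j ∈ range n, u n j := by
  induction n with
  | zero => simp
  | succ n ih =>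
    rw [sum_range_succ, ih]
    have h := wz_sum n n le_rfl
    rw [← mul_sum, sum_sub_distrib, ← mul_sum, ← mul_sum] at h
    rw [sum_range_succ _ n]
    have h1 := u_diag n n le_rfl
    have h3 := c_succ n
    have h4 := cu n
    have q1 : (2 : ℚ) * n + 1 ≠ 0 := by positivity
    have hF : F n n = -4 * n * (4 * n - 1) * (c n * u n n) := by
      unfold F
      have : (2 : ℚ) * n - 2 * n + 1 = 1 := by ring
      rw [this]
      ring
    have q3 : (n : ℚ) + 1 ≠ 0 := by positivity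
    have e1 : u (n + 1) n = 2 * (4 * n + 3) * (4 * n + 1) * u n n / (2 * n + 1) := by
      rw [eq_div_iff q1]
      linear_combination h1
    have e3 : c (n + 1) = (2 * n + 1) * c n / (32 * (n + 1)) := by
      rw [eq_div_iff (mul_ne_zero (by norm_num) q3)]; exact h3
    have h5 : 16 * ((n + 1) * c (n + 1)) * u (n + 1) n = (4 * n + 3) * (4 * n + 1) * (c n * u n n) := by
      rw [e1, e3]
      field_simp
      ring
    have h6 : (20 * (n : ℚ) + 3) * M n / (-1024) ^ n = (20 * n + 3) * (c n * u n n) := by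
      rw [h4]; ring
    rw [h6]
    rw [hF] at h
    push_cast
    linear_combination (-1) * h - h5

/-! ## integrality -/

/-- `Σ_n = ∑_{j<n} A n j (-16)^(n-j)` -/
def Sg (n : ℕ) : ℤ := ∑ j ∈ range n, (A n j : ℤ) * (-16) ^ (n - j)

lemma Sg_cast (n : ℕ) : (Sg n : ℚ) = (-16) ^ n * ∑ j ∈ range n, u n j := by
  unfold Sg
  push_cast
  rw [mul_sum]
  apply sum_congr rfl
  intro j hj
  have hj' : j ≤ n := by have := mem_range.mp hj; omega
  unfold u
  have e : (-16 : ℚ) ^ n = (-16) ^ (n - j) * (-16) ^ j := by rw [← pow_add]; congr 1; omega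
  have e5 : (-16 : ℚ) ^ j ≠ 0 := pow_ne_zero _ (by norm_num)
  rw [e]
  field_simp

lemma S_eq (n : ℕ) (hn : 1 ≤ n) : 64 * S n = -(n * (Nat.centralBinom n : ℚ)) * Sg n := by
  have h1 : S n = (-1024) ^ (n - 1) * ∑ k ∈ range n, (20 * (k : ℚ) + 3) * M k / (-1024) ^ k := by
    unfold S
    rw [mul_sum]
    apply sum_congr rfl
    intro k hk
    have hk' : k ≤ n - 1 := by have := mem_range.mp hk; omega
    have e : (-1024 : ℚ) ^ (n - 1) = (-1024) ^ (n - 1 - k) * (-1024) ^ k := by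
      rw [← pow_add]; congr 1; omega
    have e5 : (-1024 : ℚ) ^ k ≠ 0 := pow_ne_zero _ (by norm_num)
    rw [e]
    field_simp
  rw [h1, wz, Sg_cast]
  unfold c
  obtain ⟨m, rfl⟩ : ∃ m, n = m + 1 := ⟨n - 1, by omega⟩
  have e1 : m + 1 - 1 = m := by omega
  have e2 : (-1024 : ℚ) ^ m = 64 ^ m * (-16) ^ m := by rw [← mul_pow]; norm_num
  rw [e1, e2, pow_succ, pow_succ]
  field_simp

/-- the integers `C(2j,j)/(2j-1)` -/
lemma cb_div (j : ℕ) : ∃ w : ℤ, (w : ℚ) * (2 * j - 1) = (Nat.centralBinom j : ℚ) := by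
  rcases Nat.eq_zero_or_pos j with h | h
  · subst h
    exact ⟨-1, by simp⟩
  · obtain ⟨i, rfl⟩ : ∃ i, j = i + 1 := ⟨j - 1, by omega⟩
    refine ⟨2 * catalan i, ?_⟩
    have h1 := cb_succ i
    have h2 : ((i : ℚ) + 1) * catalan i = Nat.centralBinom i := by
      have h3 := succ_mul_catalan_eq_centralBinom i
      exact_mod_cast h3
    have h3 : ((i : ℚ) + 1) ≠ 0 := by positivity
    apply mul_left_cancel₀ h3
    rw [h1, ← h2]
    push_cast
    ring

lemma tel_step (n j : ℕ) (hj : j + 1 ≤ n) (w w' : ℚ) (hw : w * (2 * j - 1) = 1)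
    (hw' : w' * (2 * (j + 1) - 1) = 1) :
    4 * (j + 1) * (n + j + 1) * u n (j + 1) * w' - 4 * j * (n + j) * u n j * w =
      -(4 * n) * u n j - (2 * n + 1) * (u n j * w) := by
  have h2 := u_shift n j hj
  have h3 : w' * (2 * j + 1) = 1 := by linear_combination hw'
  generalize u n (j + 1) = X at *
  generalize u n j = Y at *
  have h4 : 4 * (j + 1) * (n + j + 1) * X * w' = -(2 * n - 2 * j - 1) * Y := by
    linear_combination w' * h2 - (2 * n - 2 * j - 1) * Y * h3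
  rw [h4]
  linear_combination (-(Y * (2 * n + 2 * j + 1))) * hw

lemma tel_sum (n J : ℕ) (hJ : J ≤ n) :
    ∑ j ∈ range J, (-(4 * (n : ℚ)) * u n j - (2 * n + 1) * (u n j * (1 / (2 * j - 1)))) =
      4 * J * (n + J) * u n J * (1 / (2 * J - 1)) := by
  have odd_ne : ∀ i : ℕ, (2 * (i : ℚ) - 1) ≠ 0 := by
    intro i h
    have h2 : (2 * (i : ℤ) - 1) = 0 := by exact_mod_cast h
    omega
  induction J with
  | zero => simp
  | succ J ih =>
    rw [sum_range_succ, ih (by omega)]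
    have h := tel_step n J hJ (1 / (2 * J - 1)) (1 / (2 * (J + 1) - 1))
      (by have := odd_ne J; field_simp) (by have := odd_ne (J + 1); push_cast at this; field_simp)
    push_cast
    linear_combination (-1) * h

lemma odd_dvd (n : ℕ) : ((2 * n + 1 : ℕ) : ℤ) ∣ Sg n := by
  choose w hw using cb_div
  have odd_ne : ∀ i : ℕ, (2 * (i : ℚ) - 1) ≠ 0 := by
    intro i h
    have h2 : (2 * (i : ℤ) - 1) = 0 := by exact_mod_cast h
    omega
  have h := tel_sum n n le_rfl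
  rw [sum_sub_distrib, ← mul_sum, ← mul_sum] at h
  -- the integer version of the second sum
  have h2 : (-16 : ℚ) ^ n * ∑ j ∈ range n, u n j * (1 / (2 * (j : ℚ) - 1)) =
      ((∑ j ∈ range n, w j * (I (n - j) (n + j) : ℤ) * (-16) ^ (n - j) : ℤ) : ℚ) := by
    push_cast
    rw [mul_sum]
    apply sum_congr rfl
    intro j hj
    have hj' : j ≤ n := by have := mem_range.mp hj; omega
    unfold u A
    have e : (-16 : ℚ) ^ n = (-16) ^ (n - j) * (-16) ^ j := by rw [← pow_add]; congr 1; omega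
    have e5 : (-16 : ℚ) ^ j ≠ 0 := pow_ne_zero _ (by norm_num)
    have e6 := odd_ne j
    push_cast
    rw [e, ← hw j]
    field_simp
  have h3 : (-16 : ℚ) ^ n * u n n = (Nat.centralBinom n : ℚ) * (Nat.centralBinom (2 * n) : ℚ) := by
    unfold u A
    have e1 : n - n = 0 := by omega
    have e2 : n + n = 2 * n := by ring
    rw [e1, e2, I_zero]
    push_cast
    have e5 : (-16 : ℚ) ^ n ≠ 0 := pow_ne_zero _ (by norm_num)
    field_simp
  have h4 : ((2 * (n : ℚ)) + 1) * catalan (2 * n) = Nat.centralBinom (2 * n) := by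
    have h3 := succ_mul_catalan_eq_centralBinom (2 * n)
    exact_mod_cast h3
  have key : 4 * (n : ℤ) * Sg n = (2 * n + 1) *
      (-(∑ j ∈ range n, w j * (I (n - j) (n + j) : ℤ) * (-16) ^ (n - j)) -
        8 * n ^ 2 * w n * catalan (2 * n)) := by
    have hq : 4 * (n : ℚ) * (Sg n : ℚ) = (2 * n + 1) *
      (-((∑ j ∈ range n, w j * (I (n - j) (n + j) : ℤ) * (-16) ^ (n - j) : ℤ) : ℚ) -
        8 * n ^ 2 * (w n : ℚ) * (catalan (2 * n) : ℚ)) := by
      rw [Sg_cast, ← h2]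
      have e6 := odd_ne n
      have h7 := hw n
      have h8 : (-16 : ℚ) ^ n * (4 * n * (n + n) * u n n * (1 / (2 * n - 1))) =
          8 * n ^ 2 * (w n : ℚ) * ((2 * n + 1) * (catalan (2 * n) : ℚ)) := by
        rw [h4]
        calc (-16 : ℚ) ^ n * (4 * n * (n + n) * u n n * (1 / (2 * n - 1)))
            = 8 * n ^ 2 * ((-16 : ℚ) ^ n * u n n) * (1 / (2 * n - 1)) := by ring
          _ = 8 * n ^ 2 * ((Nat.centralBinom n : ℚ) * (Nat.centralBinom (2 * n) : ℚ)) * (1 / (2 * n - 1)) := by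
            rw [h3]
          _ = _ := by
            rw [← h7]
            have e6' : (2 * (n : ℚ) - 1) * (1 / (2 * n - 1)) = 1 := mul_one_div_cancel e6
            linear_combination (8 * n ^ 2 * (w n : ℚ) * (Nat.centralBinom (2 * n) : ℚ)) * e6'
      rw [← h] at h8
      generalize (∑ j ∈ range n, u n j) = X at *
      generalize (∑ j ∈ range n, u n j * (1 / (2 * (j : ℚ) - 1))) = Y at *
      linear_combination (-1) * h8
    exact_mod_cast hq
  have hdvd : ((2 * n + 1 : ℕ) : ℤ) ∣ 4 * (n : ℤ) * Sg n := by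
    rw [key]
    push_cast
    exact Dvd.intro _ rfl
  have hcop : IsCoprime ((2 * n + 1 : ℕ) : ℤ) (4 * (n : ℤ)) := by
    refine ⟨(2 * n + 1 : ℤ), -(n + 1 : ℤ), ?_⟩
    push_cast
    ring
  exact hcop.dvd_of_dvd_mul_left hdvd

lemma eight_dvd (n : ℕ) (hn : 1 ≤ n) : 8 ∣ A (n + 1) n := by
  -- `A (n+1) n = C(2n,n) (4n+3) C(4n+2, 2n+1)`
  have h1 : A (n + 1) n = Nat.centralBinom n * ((4 * n + 3) * Nat.centralBinom (2 * n + 1)) := by
    unfold A
    have e1 : n + 1 - n = 0 + 1 := by omega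
    have e2 : n + 1 + n = 2 * n + 1 := by ring
    rw [e1, e2]
    congr 1
    have h := I_diag 0 (2 * n)
    have h5 := cb_succ (2 * n)
    rw [I_zero] at h
    have h6 : ((2 * n : ℕ) : ℚ) + 1 ≠ 0 := by positivity
    have h7 : (I (0 + 1) (2 * n + 1) : ℚ) = (4 * n + 3) * (Nat.centralBinom (2 * n + 1) : ℚ) := by
      apply mul_left_cancel₀ h6
      push_cast at h h5 ⊢
      linear_combination h - (4 * n + 3) * h5
    exact_mod_cast h7
  rw [h1]
  have h2 : 2 ∣ Nat.centralBinom n := Nat.two_dvd_centralBinom_of_one_le hn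
  have h3 : 4 ∣ Nat.centralBinom (2 * n + 1) := by
    have h4 := Nat.succ_mul_centralBinom_succ (2 * n)
    have h5 : 2 ∣ Nat.centralBinom (2 * n) := Nat.two_dvd_centralBinom_of_one_le (by omega)
    have h6 : 4 ∣ (2 * n + 1) * Nat.centralBinom (2 * n + 1) := by
      rw [h4]
      obtain ⟨x, hx⟩ := h5
      rw [hx]
      exact ⟨(2 * (2 * n) + 1) * x, by ring⟩
    have h7 : Nat.Coprime 4 (2 * n + 1) := by
      have : Nat.Coprime 2 (2 * n + 1) := by
        rw [Nat.coprime_two_left]; exact ⟨n, rfl⟩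
      exact Nat.Coprime.pow_left 2 this
    exact h7.dvd_of_dvd_mul_left h6
  obtain ⟨x, hx⟩ := h2
  obtain ⟨y, hy⟩ := h3
  rw [hx, hy]
  exact ⟨x * ((4 * n + 3) * y), by ring⟩

lemma two_pow_dvd (n : ℕ) (hn : 2 ≤ n) : (128 : ℤ) ∣ Sg n := by
  obtain ⟨m, rfl⟩ : ∃ m, n = m + 1 := ⟨n - 1, by omega⟩
  unfold Sg
  apply dvd_sum
  intro j hj
  have hj' : j ≤ m := by have := mem_range.mp hj; omega
  rcases Nat.lt_or_ge j m with h | h
  · obtain ⟨i, hi⟩ : ∃ i, m + 1 - j = i + 2 := ⟨m + 1 - j - 2, by omega⟩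
    rw [hi, pow_add]
    exact ⟨(A (m + 1) j : ℤ) * (-16) ^ i * 2, by ring⟩
  · have : j = m := le_antisymm hj' h
    subst this
    obtain ⟨x, hx⟩ := eight_dvd j (by omega)
    have e : j + 1 - j = 1 := by omega
    rw [e, hx]
    push_cast
    exact ⟨-(x : ℤ), by ring⟩

/-! ## the sign -/

lemma M_succ (n : ℕ) : M (n + 1) * ((n : ℚ) + 1) ^ 4 =
    M n * ((4 * n + 4) * (4 * n + 3) * (4 * n + 2) * (4 * n + 1)) := by
  unfold M
  have e : 4 * (n + 1) = 4 * n + 1 + 1 + 1 + 1 := by ring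
  rw [e, fact1, fact1, fact1, fact1, fact1]
  have h1 : (n.factorial : ℚ) ≠ 0 := by positivity
  have h2 : (n : ℚ) + 1 ≠ 0 := by positivity
  push_cast
  field_simp
  ring

lemma M_pos (n : ℕ) : 0 < M n := by unfold M; positivity

lemma S_succ (n : ℕ) : S (n + 1) = -1024 * S n + (20 * n + 3) * M n := by
  unfold S
  rw [sum_range_succ, mul_sum]
  have e : n + 1 - 1 - n = 0 := by omega
  rw [e, pow_zero, mul_one]
  congr 1
  apply sum_congr rfl
  intro k hk
  have hk' : k < n := mem_range.mp hk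
  have e2 : n + 1 - 1 - k = n - 1 - k + 1 := by omega
  rw [e2, pow_succ]
  ring

lemma sign_aux (n : ℕ) : (20 * ((n + 1 : ℕ) : ℚ) + 3) * M (n + 1) ≤ 512 * ((-1) ^ n * S (n + 1)) := by
  induction n with
  | zero =>
    have h1 : M 1 = 24 := by unfold M; norm_num [Nat.factorial]
    have h2 : S 1 = 3 := by
      have h0 : M 0 = 1 := by unfold M; simp
      unfold S; simp [h0]
    simp only [zero_add, pow_zero, one_mul]
    rw [h1, h2]
    norm_num
  | succ n ih =>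
    rw [S_succ (n + 1)]
    have h := M_succ (n + 1)
    have hp := M_pos (n + 1)
    have hm : (20 * ((n + 1 + 1 : ℕ) : ℚ) + 3) * M (n + 1 + 1) ≤ 512 * ((20 * ((n + 1 : ℕ) : ℚ) + 3) * M (n + 1)) := by
      have hq : (0 : ℚ) < (((n + 1 : ℕ) : ℚ) + 1) ^ 4 := by positivity
      have e : M (n + 1 + 1) = M (n + 1) * ((4 * ((n + 1 : ℕ) : ℚ) + 4) * (4 * ((n + 1 : ℕ) : ℚ) + 3) *
          (4 * ((n + 1 : ℕ) : ℚ) + 2) * (4 * ((n + 1 : ℕ) : ℚ) + 1)) / (((n + 1 : ℕ) : ℚ) + 1) ^ 4 := by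
        rw [eq_div_iff hq.ne']; exact h
      rw [e, ← mul_div_assoc, div_le_iff₀ hq]
      have hn0 : (0 : ℚ) ≤ n := Nat.cast_nonneg n
      have key : (20 * ((n + 1 + 1 : ℕ) : ℚ) + 3) * ((4 * ((n + 1 : ℕ) : ℚ) + 4) * (4 * ((n + 1 : ℕ) : ℚ) + 3) *
          (4 * ((n + 1 : ℕ) : ℚ) + 2) * (4 * ((n + 1 : ℕ) : ℚ) + 1)) ≤
          512 * (20 * ((n + 1 : ℕ) : ℚ) + 3) * (((n + 1 : ℕ) : ℚ) + 1) ^ 4 := by
        push_cast
        have : 512 * (20 * ((n : ℚ) + 1) + 3) * (((n : ℚ) + 1) + 1) ^ 4 -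
            (20 * ((n : ℚ) + 1 + 1) + 3) * ((4 * ((n : ℚ) + 1) + 4) * (4 * ((n : ℚ) + 1) + 3) *
          (4 * ((n : ℚ) + 1) + 2) * (4 * ((n : ℚ) + 1) + 1)) =
            5120 * n ^ 5 + 49408 * n ^ 4 + 188096 * n ^ 3 + 352336 * n ^ 2 + 323720 * n + 116176 := by
          ring
        nlinarith [pow_nonneg hn0 5, pow_nonneg hn0 4, pow_nonneg hn0 3, pow_nonneg hn0 2]
      calc (20 * ((n + 1 + 1 : ℕ) : ℚ) + 3) * (M (n + 1) * ((4 * ((n + 1 : ℕ) : ℚ) + 4) * (4 * ((n + 1 : ℕ) : ℚ) + 3) *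
          (4 * ((n + 1 : ℕ) : ℚ) + 2) * (4 * ((n + 1 : ℕ) : ℚ) + 1)))
          = M (n + 1) * ((20 * ((n + 1 + 1 : ℕ) : ℚ) + 3) * ((4 * ((n + 1 : ℕ) : ℚ) + 4) * (4 * ((n + 1 : ℕ) : ℚ) + 3) *
          (4 * ((n + 1 : ℕ) : ℚ) + 2) * (4 * ((n + 1 : ℕ) : ℚ) + 1))) := by ring
        _ ≤ M (n + 1) * (512 * (20 * ((n + 1 : ℕ) : ℚ) + 3) * (((n + 1 : ℕ) : ℚ) + 1) ^ 4) :=
          mul_le_mul_of_nonneg_left key hp.le
        _ = _ := by ring
    have hsign : (-1 : ℚ) ^ (n + 1) * ((20 * ((n + 1 : ℕ) : ℚ) + 3) * M (n + 1)) ≥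
        -((20 * ((n + 1 : ℕ) : ℚ) + 3) * M (n + 1)) := by
      have hpos : 0 ≤ (20 * ((n + 1 : ℕ) : ℚ) + 3) * M (n + 1) := by positivity
      rcases neg_one_pow_eq_or ℚ (n + 1) with h | h <;> rw [h] <;> linarith
    have e : (-1 : ℚ) ^ (n + 1) * (-1024 * S (n + 1) + (20 * ((n + 1 : ℕ) : ℚ) + 3) * M (n + 1)) =
        1024 * ((-1) ^ n * S (n + 1)) + (-1 : ℚ) ^ (n + 1) * ((20 * ((n + 1 : ℕ) : ℚ) + 3) * M (n + 1)) := by
      rw [pow_succ]; ring
    rw [e]
    linarith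

lemma S_sign (n : ℕ) (hn : 1 ≤ n) : 0 < (-1) ^ (n - 1) * S n := by
  obtain ⟨m, rfl⟩ : ∃ m, n = m + 1 := ⟨n - 1, by omega⟩
  have h := sign_aux m
  have hp := M_pos (m + 1)
  have h2 : 0 < (20 * ((m + 1 : ℕ) : ℚ) + 3) * M (m + 1) := by positivity
  have e : m + 1 - 1 = m := by omega
  rw [e]
  linarith

/-- **Full answer to Q1**: for every `n ≥ 2` the number `(-1)^(n-1) a_n` is a positive integer. -/
theorem result (n : ℕ) (hn : 2 ≤ n) : ∃ z : ℤ, 0 < z ∧ (-1) ^ (n - 1) * a n = (z : ℚ) := by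
  have hdvd : ((128 * (2 * n + 1) : ℕ) : ℤ) ∣ Sg n := by
    have h1 := odd_dvd n
    have h2 := two_pow_dvd n hn
    have hc : IsCoprime (128 : ℤ) ((2 * n + 1 : ℕ) : ℤ) := by
      have : IsCoprime (2 : ℤ) ((2 * n + 1 : ℕ) : ℤ) := ⟨-(n : ℤ), 1, by push_cast; ring⟩
      have h := this.pow_left (m := 7)
      norm_num at h
      exact_mod_cast h
    have h := hc.mul_dvd h2 h1
    exact_mod_cast h
  obtain ⟨y, hy⟩ := hdvd
  have hS := S_eq n (by omega)
  have hn0 : (n : ℚ) ≠ 0 := by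
    have : n ≠ 0 := by omega
    exact_mod_cast this
  have hc : (Nat.centralBinom n : ℚ) ≠ 0 := by
    have := (Nat.centralBinom_pos n).ne'
    exact_mod_cast this
  have h2 : (2 * (n : ℚ) + 1) ≠ 0 := by positivity
  have ha : a n = -(y : ℚ) := by
    unfold a
    rw [← Nat.centralBinom_eq_two_mul_choose]
    rw [div_eq_iff (by positivity)]
    rw [hy] at hS
    push_cast at hS
    linear_combination hS / 64
  refine ⟨(-1) ^ (n - 1) * (-y), ?_, ?_⟩
  · have hpos : 0 < (-1) ^ (n - 1) * a n := by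
      unfold a
      rw [← mul_div_assoc]
      apply div_pos (S_sign n (by omega))
      have : 0 < (2 * n).choose n := Nat.choose_pos (by omega)
      positivity
    rw [ha] at hpos
    exact_mod_cast hpos
  · rw [ha]
    push_cast
    ring

end Pool.Agent.Results.MP_f65ae4_nt.SignIntegrality
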